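import Pool.Agent.Lib.MP_688fd0_co.LIN.Iface

/-!
Module MULTI (LIN): large 2-regular part of a multigraph.  (helper60)
-/

set_option autoImplicit false

namespace Pool.Agent.Lib.MP_688fd0_co.LIN.H60

open Classical

universe u

/-- degree of `a` in the multigraph with edge set `Z` and ends `f`, `g` -/
noncomputable def dgm {α β : Type u} (f g : β → α) (Z : Finset β) (a : α) : ℕ :=
  (Z.filter (fun e => f e = a ∨ g e = a)).card

/-- a multigraph with more edges than vertices contains a nonempty subset with all degrees in `{0,2}` -/
theorem exists_two_reg {α β : Type u} : ∀ (n : ℕ) (S : Finset α) (E : Finset β) (f g : β → α), S.card = n →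
    (∀ e ∈ E, f e ∈ S ∧ g e ∈ S ∧ f e ≠ g e) → S.card < E.card →
    ∃ Z ⊆ E, Z.Nonempty ∧ ∀ a, dgm f g Z a = 0 ∨ dgm f g Z a = 2 := by
  intro n
  induction n with
  | zero =>
    intro S E f g hS hE hc
    obtain ⟨e, he⟩ : E.Nonempty := Finset.card_pos.1 (by omega)
    have := (hE e he).1
    rw [Finset.card_eq_zero.1 hS] at this
    simp at this
  | succ n ih =>
    intro S E f g hS hE hc
    obtain ⟨e0, he0⟩ : E.Nonempty := Finset.card_pos.1 (by omega)
    obtain ⟨ha, hb, hab⟩ := hE e0 he0
    by_cases hpar : ∃ e1 ∈ E, e1 ≠ e0 ∧ ((f e1 = f e0 ∧ g e1 = g e0) ∨ (f e1 = g e0 ∧ g e1 = f e0))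
    · obtain ⟨e1, he1, hne, hp⟩ := hpar
      refine ⟨{e0, e1}, ?_, ⟨e0, by simp⟩, ?_⟩
      · intro e he
        rcases Finset.mem_insert.1 he with rfl | he
        · exact he0
        · rw [Finset.mem_singleton.1 he]; exact he1
      · intro x
        unfold dgm
        by_cases hx : f e0 = x ∨ g e0 = x
        · right
          have hx1 : f e1 = x ∨ g e1 = x := by
            rcases hp with ⟨h1, h2⟩ | ⟨h1, h2⟩
            · rw [h1, h2]; exact hx
            · rw [h1, h2]; exact hx.symm
          rw [Finset.filter_true_of_mem]
          · rw [Finset.card_pair hne.symm]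
          · intro e he
            rcases Finset.mem_insert.1 he with rfl | he
            · exact hx
            · rw [Finset.mem_singleton.1 he]; exact hx1
        · left
          have hx1 : ¬ (f e1 = x ∨ g e1 = x) := by
            rcases hp with ⟨h1, h2⟩ | ⟨h1, h2⟩
            · rw [h1, h2]; exact hx
            · rw [h1, h2]; exact fun h => hx h.symm
          rw [Finset.card_eq_zero, Finset.filter_eq_empty_iff]
          intro e he
          rcases Finset.mem_insert.1 he with rfl | he
          · exact hx
          · rw [Finset.mem_singleton.1 he]; exact hx1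
    · -- contract the edge e0
      push Not at hpar
      set a := f e0 with hadef
      set b := g e0 with hbdef
      set r : α → α := fun x => if x = b then a else x with hr
      have hrS : ∀ x ∈ S, r x ∈ S.erase b := by
        intro x hx
        simp only [hr]
        split_ifs with h
        · exact Finset.mem_erase.2 ⟨hab, ha⟩
        · exact Finset.mem_erase.2 ⟨h, hx⟩
      have hrne : ∀ e ∈ E.erase e0, r (f e) ≠ r (g e) := by
        intro e he
        have he' := Finset.mem_erase.1 he
        obtain ⟨h1, h2, h3⟩ := hE e he'.2
        obtain ⟨p1, p2⟩ := hpar e he'.2 he'.1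
        simp only [hr]
        split_ifs with q1 q2 q2
        · exact fun _ => h3 (q1.trans q2.symm)
        · intro h
          exact p2 q1 h.symm
        · intro h
          exact p1 h q2
        · exact h3
      have hcard : (S.erase b).card = n := by
        rw [Finset.card_erase_of_mem hb, hS]; omega
      have hcE : (E.erase e0).card = E.card - 1 := Finset.card_erase_of_mem he0
      obtain ⟨Z, hZ, hne, hdeg⟩ := ih (S.erase b) (E.erase e0) (fun e => r (f e)) (fun e => r (g e)) hcard
        (fun e he => ⟨hrS _ (hE e (Finset.mem_erase.1 he).2).1, hrS _ (hE e (Finset.mem_erase.1 he).2).2.1,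
          hrne e he⟩) (by omega)
      have hZE : Z ⊆ E := hZ.trans (Finset.erase_subset _ _)
      have he0Z : e0 ∉ Z := fun h => (Finset.mem_erase.1 (hZ h)).1 rfl
      -- degrees away from a, b
      have hother : ∀ x, x ≠ a → x ≠ b → dgm f g Z x = dgm (fun e => r (f e)) (fun e => r (g e)) Z x := by
        intro x hxa hxb
        unfold dgm
        congr 1
        apply Finset.filter_congr
        intro e _
        have key : ∀ y, y = x ↔ r y = x := by
          intro y
          simp only [hr]
          split_ifs with h
          · constructor
            · intro h'; exact absurd (h'.symm.trans h) hxb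
            · intro h'; exact absurd h'.symm hxa
          · exact Iff.rfl
        rw [key (f e), key (g e)]
      have hsum : dgm f g Z a + dgm f g Z b = dgm (fun e => r (f e)) (fun e => r (g e)) Z a := by
        unfold dgm
        rw [← Finset.card_union_of_disjoint]
        · congr 1
          ext e
          simp only [Finset.mem_union, Finset.mem_filter]
          have key : ∀ y, r y = a ↔ (y = a ∨ y = b) := by
            intro y
            simp only [hr]
            split_ifs with h
            · simp [h]
            · simp [h]
          rw [key, key]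
          tauto
        · rw [Finset.disjoint_left]
          intro e h1 h2
          obtain ⟨hZe, h1⟩ := Finset.mem_filter.1 h1
          obtain ⟨_, h2⟩ := Finset.mem_filter.1 h2
          have hEe := hZE hZe
          obtain ⟨_, _, h3⟩ := hE e hEe
          have hne0 : e ≠ e0 := fun h => he0Z (h ▸ hZe)
          obtain ⟨p1, p2⟩ := hpar e hEe hne0
          rcases h1 with h1 | h1 <;> rcases h2 with h2 | h2
          · exact hab (h1.symm.trans h2)
          · exact p1 h1 h2
          · exact p2 h2 h1
          · exact hab (h1.symm.trans h2)
      have hda := hdeg a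
      rw [← hsum] at hda
      by_cases h11 : dgm f g Z a = 1 ∧ dgm f g Z b = 1
      · refine ⟨insert e0 Z, ?_, ⟨e0, Finset.mem_insert_self _ _⟩, ?_⟩
        · exact Finset.insert_subset he0 hZE
        · intro x
          unfold dgm
          rw [Finset.filter_insert]
          by_cases hxa : x = a
          · subst hxa
            rw [if_pos (Or.inl rfl), Finset.card_insert_of_notMem (fun h => he0Z (Finset.mem_filter.1 h).1)]
            right
            have := h11.1
            unfold dgm at this
            omega
          · by_cases hxb : x = b
            · subst hxb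
              rw [if_pos (Or.inr rfl), Finset.card_insert_of_notMem (fun h => he0Z (Finset.mem_filter.1 h).1)]
              right
              have := h11.2
              unfold dgm at this
              omega
            · rw [if_neg]
              · have := hdeg x
                rw [← hother x hxa hxb] at this
                exact this
              · rintro (h | h)
                · exact hxa h.symm
                · exact hxb h.symm
      · refine ⟨Z, hZE, hne, ?_⟩
        intro x
        by_cases hxa : x = a
        · subst hxa
          by_contra hcon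
          push Not at hcon
          omega
        · by_cases hxb : x = b
          · subst hxb
            by_contra hcon
            push Not at hcon
            omega
          · rw [hother x hxa hxb]; exact hdeg x

/-- handshake for the multigraph -/
theorem sum_dgm {α β : Type u} (S : Finset α) (Z : Finset β) (f g : β → α)
    (h : ∀ e ∈ Z, f e ∈ S ∧ g e ∈ S ∧ f e ≠ g e) : ∑ a ∈ S, dgm f g Z a = 2 * Z.card := by
  unfold dgm
  simp_rw [Finset.card_filter]
  rw [Finset.sum_comm]
  rw [Finset.card_eq_sum_ones, Finset.mul_sum]
  apply Finset.sum_congr rfl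
  intro e he
  obtain ⟨h1, h2, h3⟩ := h e he
  rw [← Finset.card_filter]
  have : S.filter (fun a => f e = a ∨ g e = a) = {f e, g e} := by
    ext a
    simp only [Finset.mem_filter, Finset.mem_insert, Finset.mem_singleton]
    constructor
    · rintro ⟨_, h | h⟩
      · exact Or.inl h.symm
      · exact Or.inr h.symm
    · rintro (h | h)
      · rw [h]; exact ⟨h1, Or.inl rfl⟩
      · rw [h]; exact ⟨h2, Or.inr rfl⟩
  rw [this, Finset.card_pair h3, mul_one]

/-- Module MULTI. -/
theorem multi : MultiStatement.{u} := by
  intro α β S E f g D hE hD
  -- a maximal subset with all degrees in {0,2}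
  let good : Finset (Finset β) := E.powerset.filter (fun Z => ∀ a, dgm f g Z a = 0 ∨ dgm f g Z a = 2)
  have hgood : good.Nonempty := by
    refine ⟨∅, ?_⟩
    simp only [good, Finset.mem_filter, Finset.mem_powerset]
    refine ⟨Finset.empty_subset _, ?_⟩
    intro a
    left
    simp [dgm]
  obtain ⟨Z, hZg, hmax⟩ := Finset.exists_max_image good Finset.card hgood
  simp only [good, Finset.mem_filter, Finset.mem_powerset] at hZg hmax
  obtain ⟨hZE, hdeg⟩ := hZg
  set T := S.filter (fun a => dgm f g Z a = 2) with hT
  have hZT : Z.card = T.card := by
    have h1 := sum_dgm S Z f g (fun e he => hE e (hZE he))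
    have h2 : ∑ a ∈ S, dgm f g Z a = ∑ a ∈ S, (if dgm f g Z a = 2 then 2 else 0) := by
      apply Finset.sum_congr rfl
      intro a _
      rcases hdeg a with h | h
      · rw [h]; rfl
      · rw [h]; rfl
    rw [h2, ← Finset.sum_filter] at h1
    rw [Finset.sum_const, smul_eq_mul] at h1
    have h3 : T.card * 2 = 2 * Z.card := by
      rw [← h1]
    omega
  -- edges not meeting T
  set F := E.filter (fun e => f e ∉ T ∧ g e ∉ T) with hF
  have hFS : F.card ≤ S.card := by
    by_contra hcon
    push Not at hcon
    obtain ⟨Z', hZ'F, hZ'ne, hZ'deg⟩ := exists_two_reg S.card S F f g rfl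
      (fun e he => hE e (Finset.mem_filter.1 he).1) hcon
    have hdisj : Disjoint Z Z' := by
      rw [Finset.disjoint_left]
      intro e h1 h2
      obtain ⟨_, h3, _⟩ := Finset.mem_filter.1 (hZ'F h2)
      apply h3
      rw [hT, Finset.mem_filter]
      refine ⟨(hE e (hZE h1)).1, ?_⟩
      rcases hdeg (f e) with h | h
      · exfalso
        unfold dgm at h
        rw [Finset.card_eq_zero, Finset.filter_eq_empty_iff] at h
        exact h h1 (Or.inl rfl)
      · exact h
    have hU : Z ∪ Z' ⊆ E := Finset.union_subset hZE (hZ'F.trans (Finset.filter_subset _ _))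
    have hdegU : ∀ a, dgm f g (Z ∪ Z') a = 0 ∨ dgm f g (Z ∪ Z') a = 2 := by
      intro a
      have hadd : dgm f g (Z ∪ Z') a = dgm f g Z a + dgm f g Z' a := by
        unfold dgm
        rw [Finset.filter_union, Finset.card_union_of_disjoint]
        exact hdisj.mono (Finset.filter_subset _ _) (Finset.filter_subset _ _)
      rcases hdeg a with h | h
      · rw [hadd, h, zero_add]; exact hZ'deg a
      · right
        rw [hadd, h]
        have : dgm f g Z' a = 0 := by
          unfold dgm
          rw [Finset.card_eq_zero, Finset.filter_eq_empty_iff]
          intro e he hcon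
          obtain ⟨hEe, h3, h4⟩ := Finset.mem_filter.1 (hZ'F he)
          rcases hcon with hc | hc
          · apply h3
            rw [hT, Finset.mem_filter]
            exact ⟨(hE e hEe).1, by rw [hc]; exact h⟩
          · apply h4
            rw [hT, Finset.mem_filter]
            exact ⟨(hE e hEe).2.1, by rw [hc]; exact h⟩
        rw [this]
    have h5 := hmax (Z ∪ Z') ⟨hU, hdegU⟩
    rw [Finset.card_union_of_disjoint hdisj] at h5
    have := Finset.card_pos.2 hZ'ne
    omega
  have hrest : (E \ F).card ≤ D * Z.card := by
    have hsub : E \ F ⊆ T.biUnion (fun a => E.filter (fun e => f e = a ∨ g e = a)) := by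
      intro e he
      obtain ⟨hEe, hnF⟩ := Finset.mem_sdiff.1 he
      rw [Finset.mem_biUnion]
      rw [hF, Finset.mem_filter, not_and, not_and_or, not_not, not_not] at hnF
      rcases hnF hEe with h | h
      · exact ⟨f e, h, Finset.mem_filter.2 ⟨hEe, Or.inl rfl⟩⟩
      · exact ⟨g e, h, Finset.mem_filter.2 ⟨hEe, Or.inr rfl⟩⟩
    calc (E \ F).card ≤ _ := Finset.card_le_card hsub
      _ ≤ T.card * D := Finset.card_biUnion_le_card_mul _ _ _ (fun a ha => hD a (Finset.mem_filter.1 ha).1)
      _ = D * Z.card := by rw [hZT, mul_comm]
  refine ⟨Z, hZE, hdeg, hZT, ?_⟩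
  have h6 : E.card = (E \ F).card + F.card := by
    rw [Finset.card_sdiff_add_card_eq_card]
    exact Finset.filter_subset _ _
  omega

end Pool.Agent.Lib.MP_688fd0_co.LIN.H60
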