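import Pool.Agent.Lib.MP_688fd0_co.LIN.H60.Pair
import Pool.Agent.Lib.MP_688fd0_co.LIN.H60.Multi

/-!
Module STEPB (LIN): kept connections give a better family.  (helper60)
-/

set_option autoImplicit false

namespace Pool.Agent.Lib.MP_688fd0_co.LIN.H60

open Classical
open Pool.Agent.Lib.MP_688fd0_co.LP (IsP Conn Cyc Symm cay)

universe u

/-! ### Basic facts -/

section basic
variable {V : Type u} [Fintype V]

theorem mem_cyc {H : SimpleGraph V} {v w : V} : w ∈ cyc H v ↔ H.Reachable v w := by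
  simp [cyc]

theorem cyc_eq_iff {H : SimpleGraph V} {v w : V} : cyc H v = cyc H w ↔ H.Reachable v w := by
  constructor
  · intro h
    have : w ∈ cyc H v := by rw [h]; exact mem_cyc.2 (SimpleGraph.Reachable.refl _)
    exact mem_cyc.1 this
  · intro h
    ext x
    rw [mem_cyc, mem_cyc]
    exact ⟨fun h' => h.symm.trans h', fun h' => h.trans h'⟩

theorem hcls_some {H : SimpleGraph V} {v : V} {S : Finset V} : hcls H v = some S ↔ v ∈ cov H ∧ cyc H v = S := by
  unfold hcls
  split_ifs with h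
  · simp [h]
  · simp [h]

theorem hcls_none {H : SimpleGraph V} {v : V} : hcls H v = none ↔ v ∉ cov H := by
  unfold hcls
  split_ifs with h
  · simp [h]
  · simp [h]

theorem exists_walk {H : SimpleGraph V} : ∀ (l : List V) (a b : V), l.IsChain H.Adj → l.head? = some a →
    l.getLast? = some b → ∃ p : H.Walk a b, p.length + 1 = l.length := by
  intro l
  induction l with
  | nil => intro a b _ h; simp at h
  | cons x l ih =>
    intro a b hc ha hb
    simp only [List.head?_cons, Option.some.injEq] at ha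
    subst ha
    rcases l with _ | ⟨y, l⟩
    · simp only [List.getLast?_singleton, Option.some.injEq] at hb
      subst hb
      exact ⟨SimpleGraph.Walk.nil, by simp⟩
    · rw [List.isChain_cons_cons] at hc
      rw [List.getLast?_cons_cons] at hb
      obtain ⟨p, hp⟩ := ih y b hc.2 (by simp) hb
      exact ⟨SimpleGraph.Walk.cons hc.1 p, by rw [SimpleGraph.Walk.length_cons, hp]; rfl⟩

theorem reach_head {H : SimpleGraph V} : ∀ (l : List V) (a : V), l.IsChain H.Adj → l.head? = some a →
    ∀ x ∈ l, H.Reachable a x := by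
  intro l
  induction l with
  | nil => intro a _ h; simp at h
  | cons x l ih =>
    intro a hc ha z hz
    simp only [List.head?_cons, Option.some.injEq] at ha
    subst ha
    rcases l with _ | ⟨y, l⟩
    · simp only [List.mem_singleton] at hz
      rw [hz]
    · rw [List.isChain_cons_cons] at hc
      rcases List.mem_cons.1 hz with rfl | hz
      · exact SimpleGraph.Reachable.refl _
      · exact hc.1.reachable.trans (ih y hc.2 (by simp) z hz)

theorem reach_chain {H : SimpleGraph V} {l : List V} (hc : l.IsChain H.Adj) {x y : V} (hx : x ∈ l) (hy : y ∈ l) :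
    H.Reachable x y := by
  obtain ⟨a, ha⟩ : ∃ a, l.head? = some a := by
    rcases l with _ | ⟨a, l⟩
    · simp at hx
    · exact ⟨a, rfl⟩
  exact (reach_head l a hc ha x hx).symm.trans (reach_head l a hc ha y hy)

theorem mem_of_head? {l : List V} {a : V} (h : l.head? = some a) : a ∈ l := by
  rcases l with _ | ⟨b, l⟩
  · simp at h
  · simp only [List.head?_cons, Option.some.injEq] at h
    rw [h]; simp

theorem mem_of_getLast? {l : List V} {a : V} (h : l.getLast? = some a) : a ∈ l := List.mem_of_getLast? h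

theorem mem_of_isEnd {l : List V} {a : V} (h : IsEnd l a) : a ∈ l := by
  rcases h with h | h
  · exact mem_of_head? h
  · exact mem_of_getLast? h

/-- the two ends of a nodup list of length at least 2 are different -/
theorem ends_ne {l : List V} {a b : V} (hn : l.Nodup) (h2 : 2 ≤ l.length) (ha : l.head? = some a)
    (hb : l.getLast? = some b) : a ≠ b := by
  rcases l with _ | ⟨x, l⟩
  · simp at ha
  · simp only [List.head?_cons, Option.some.injEq] at ha
    subst ha
    rcases l with _ | ⟨y, l⟩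
    · simp at h2
    · rw [List.getLast?_cons_cons] at hb
      have h1 : b ∈ y :: l := List.mem_of_getLast? hb
      intro h
      rw [h] at hn
      exact (List.nodup_cons.1 hn).1 h1

theorem chain_part {R : V → V → Prop} {s L : List V} (hc : L.IsChain R) (h : s <:+: L) : s.IsChain R := by
  obtain ⟨p, q, rfl⟩ := h
  exact hc.left_of_append.right_of_append

theorem list_between {L : List V} (hL : L.Nodup) {a b : V} (ha : a ∈ L) (hb : b ∈ L) (hab : a ≠ b) :
    ∃ s, s <:+: L ∧ 2 ≤ s.length ∧ ((s.head? = some a ∧ s.getLast? = some b) ∨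
      (s.head? = some b ∧ s.getLast? = some a)) := by
  obtain ⟨p, q, rfl⟩ := List.append_of_mem ha
  rcases List.mem_append.1 hb with h | h
  · obtain ⟨p1, p2, rfl⟩ := List.append_of_mem h
    refine ⟨b :: (p2 ++ [a]), ⟨p1, q, by simp⟩, by simp, Or.inr ⟨by simp, ?_⟩⟩
    rw [← List.cons_append, List.getLast?_append]
    simp
  · rcases List.mem_cons.1 h with h | h
    · exact absurd h.symm hab
    · obtain ⟨p1, p2, rfl⟩ := List.append_of_mem h
      refine ⟨a :: (p1 ++ [b]), ⟨p, p2, by simp⟩, by simp, Or.inl ⟨by simp, ?_⟩⟩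
      rw [← List.cons_append, List.getLast?_append]
      simp

end basic

/-! ### The final surgery -/

/-- From the arcs and connections to a contradiction. -/
theorem final_step (h1 : Surg1Statement.{u}) (h2 : Surg2Statement.{u}) (h3 : CountStatement.{u})
    {V : Type u} [Fintype V] {G H : SimpleGraph V} {l x w m : ℕ} {mv bs cons : Finset (List V)}
    (hopt : Opt G l H) (hx : 1 ≤ x) (hw : 1 ≤ w) (hwl : 16 * w ≤ l)
    (hp : (cov H).card ≤ 31 * 384 * x * w * m) (hm : m ≤ 4 * mv.card) (hm1 : 1 ≤ m)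
    (hsurg : Surg G H (mv ∪ bs) cons) (hdisj : Disjoint mv bs) (hbs : bs.card = mv.card)
    (hlen : ∀ s ∈ mv ∪ bs, s.length ≤ w)
    (hsep1 : ∀ l ∈ mv, ∀ l' ∈ mv ∪ bs, l' ≠ l → ∀ x ∈ l, ∀ y ∈ l', ¬ H.Reachable x y)
    (hcons : ∀ l ∈ cons, (∃ s ∈ mv, ∃ a, l.head? = some a ∧ IsEnd s a) ∧
      (∃ s ∈ bs, ∃ b, l.getLast? = some b ∧ IsEnd s b))
    (hfar : ∀ l ∈ cons, ∀ l' ∈ cons, l ≠ l' → ∀ a a' b b', l.head? = some a → l'.head? = some a' →
      H.Reachable a a' → l.getLast? = some b → l'.getLast? = some b' → H.Reachable b b' →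
      2 ^ 20 * x * w ≤ H.dist b b') : False := by
  obtain ⟨hcf, hcov⟩ := h1 V G H (mv ∪ bs) cons hsurg
  have hn := h2 V G H (mv ∪ bs) cons hsurg
  have hc := h3 V G H mv bs cons (2 ^ 20 * x * w) hsurg hdisj hsep1 hcons hfar
  set c := ((endsOf (mv ∪ bs)).image (cyc (newG H (mv ∪ bs) cons))).card with hcdef
  set t := mv.card with ht
  have ht1 : 1 ≤ t := by omega
  -- sum of lengths
  have hsum : ∑ s ∈ mv ∪ bs, (s.length - 2) ≤ 2 * t * w := by
    calc ∑ s ∈ mv ∪ bs, (s.length - 2) ≤ ∑ s ∈ mv ∪ bs, w :=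
          Finset.sum_le_sum (fun s hs => (Nat.sub_le _ _).trans (hlen s hs))
      _ = (mv ∪ bs).card * w := by rw [Finset.sum_const, smul_eq_mul]
      _ = 2 * t * w := by rw [Finset.card_union_of_disjoint hdisj, hbs]; ring
  -- number of cycles met by arcs
  have hhead : ∀ s ∈ mv ∪ bs, ∃ a, s.head? = some a := by
    intro s hs
    have := (hsurg.arc s hs).2.2
    rcases s with _ | ⟨a, s⟩
    · simp at this
    · exact ⟨a, rfl⟩
  have hmeet : t + 1 ≤ ((endsOf (mv ∪ bs)).image (cyc H)).card := by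
    obtain ⟨b0, hb0⟩ : bs.Nonempty := Finset.card_pos.1 (by omega)
    have : Nonempty V := ⟨(hhead b0 (Finset.mem_union_right _ hb0)).choose⟩
    choose! hd hhd using hhead
    have hinj : Set.InjOn (fun s => cyc H (hd s)) (↑(insert b0 mv) : Set (List V)) := by
      intro s hs s' hs' heq
      by_contra hne
      have hreach := cyc_eq_iff.1 heq
      have hs1 := Finset.mem_insert.1 (Finset.mem_coe.1 hs)
      have hs2 := Finset.mem_insert.1 (Finset.mem_coe.1 hs')
      clear hs hs'
      have key : ∀ s ∈ mv, ∀ s' ∈ mv ∪ bs, s' ≠ s → ¬ H.Reachable (hd s) (hd s') := by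
        intro s hs s' hs' hne'
        exact hsep1 s hs s' hs' hne' _ (mem_of_head? (hhd s (Finset.mem_union_left _ hs))) _
          (mem_of_head? (hhd s' hs'))
      rcases hs1 with rfl | hs1
      · rcases hs2 with rfl | hs2
        · exact hne rfl
        · exact key s' hs2 s (Finset.mem_union_right _ hb0) hne hreach.symm
      · rcases hs2 with rfl | hs2
        · exact key s hs1 s' (Finset.mem_union_right _ hb0) (Ne.symm hne) hreach
        · exact key s hs1 s' (Finset.mem_union_left _ hs2) (Ne.symm hne) hreach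
    have hb0mv : b0 ∉ mv := fun h => Finset.disjoint_left.1 hdisj h hb0
    calc t + 1 = (insert b0 mv).card := by rw [Finset.card_insert_of_notMem hb0mv]
      _ = ((insert b0 mv).image (fun s => cyc H (hd s))).card := (Finset.card_image_of_injOn hinj).symm
      _ ≤ _ := by
        apply Finset.card_le_card
        intro S hS
        obtain ⟨s, hs, rfl⟩ := Finset.mem_image.1 hS
        have hs' : s ∈ mv ∪ bs := by
          rcases Finset.mem_insert.1 hs with rfl | hs
          · exact Finset.mem_union_right _ hb0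
          · exact Finset.mem_union_left _ hs
        refine Finset.mem_image.2 ⟨hd s, ?_, rfl⟩
        rw [endsOf, Finset.mem_filter]
        exact ⟨Finset.mem_univ _, s, hs', Or.inl (hhd s hs')⟩
  -- numerics
  have hxw : 1 ≤ x * w := Nat.one_le_iff_ne_zero.2 (by positivity)
  have hcc : 2097152 * c ≤ 1143808 * t := by
    have e1 : 31 * 384 * x * w * m ≤ 31 * 384 * x * w * (4 * t) := Nat.mul_le_mul_left _ hm
    have e2 : (x * w) * (2097152 * c) ≤ (x * w) * (1143808 * t) := by
      calc (x * w) * (2097152 * c) = 2 * (2 ^ 20 * x * w) * c := by ring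
        _ ≤ 2 ^ 20 * x * w * t + 2 * (cov H).card := hc
        _ ≤ 2 ^ 20 * x * w * t + 2 * (31 * 384 * x * w * (4 * t)) := by omega
        _ = (x * w) * (1143808 * t) := by ring
    exact Nat.le_of_mul_le_mul_left e2 (by omega)
  have hphi := hopt.2 _ hcf
  unfold phi at hphi
  set n' := ncyc (newG H (mv ∪ bs) cons) with hn'
  set p' := (cov (newG H (mv ∪ bs) cons)).card with hp'
  set n := ncyc H
  set p := (cov H).card
  have hn2 : n' + (t + 1) ≤ n + c := by omega
  have hp2 : p ≤ p' + 2 * t * w := by omega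
  have hn3 : (n' : ℤ) + (t + 1) ≤ n + c := by exact_mod_cast hn2
  have hp3 : (p : ℤ) ≤ p' + 2 * t * w := by exact_mod_cast hp2
  have hl0 : (0 : ℤ) ≤ l := by positivity
  have h5 : (l : ℤ) * (n' + (t + 1)) ≤ l * (n + c) := mul_le_mul_of_nonneg_left hn3 hl0
  have h6 : (16 : ℤ) * w ≤ l := by exact_mod_cast hwl
  have h7 : (16 : ℤ) * w * (2 * t) ≤ l * (2 * t) := mul_le_mul_of_nonneg_right h6 (by positivity)
  have hc4 : (2097152 : ℤ) * c ≤ 1143808 * t := by exact_mod_cast hcc
  have h8 : (l : ℤ) * (2097152 * c) ≤ l * (1143808 * t) := mul_le_mul_of_nonneg_left hc4 hl0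
  have hlpos : (1 : ℤ) ≤ l := by
    have : 1 ≤ l := by omega
    exact_mod_cast this
  have ht0 : (0 : ℤ) ≤ l * t := by positivity
  nlinarith [h5, h7, h8, ht0, hlpos, hp3, hphi]

/-! ### The arcs on the bases -/

section arcs
variable {V : Type u} [Fintype V]

/-- The set `E` of arcs between landing points. -/
theorem exists_E (h4 : PairStatement.{u}) {H : SimpleGraph V} {w : ℕ} {W : Finset (List V)}
    (hW : ∀ l' ∈ W, l' ≠ [] ∧ l'.Nodup ∧ l'.IsChain H.Adj ∧ l'.length ≤ w ∧ ∀ v ∈ l', v ∈ cov H) (hPD : PD W)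
    (hWc : ∀ v ∈ cov H, ∃ l' ∈ W, v ∈ l') (L : Finset V) (hL : ∀ v ∈ L, v ∈ cov H) :
    ∃ E : Finset (List V), (∀ s ∈ E, IsArc H s ∧ s.length ≤ w ∧ (∃ a ∈ L, s.head? = some a) ∧
      (∃ b ∈ L, s.getLast? = some b)) ∧ PD E ∧ L.card ≤ 2 * E.card + W.card := by
  have hF : ∀ l' ∈ W, ∃ F : Finset (List V), (∀ s ∈ F, s <:+: l' ∧ 2 ≤ s.length ∧
      (∃ a ∈ L, s.head? = some a) ∧ (∃ b ∈ L, s.getLast? = some b)) ∧
      (∀ s ∈ F, ∀ s' ∈ F, s ≠ s' → List.Disjoint s s') ∧ (L.filter (fun a => a ∈ l')).card ≤ 2 * F.card + 1 :=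
    fun l' hl' => h4 V l' (hW l' hl').2.1 L
  choose! F hF1 hF2 hF3 using hF
  have hEdis : ∀ l' ∈ W, ∀ l'' ∈ W, l' ≠ l'' → ∀ s ∈ F l', ∀ s' ∈ F l'', List.Disjoint s s' := by
    intro l' hl' l'' hl'' hne s hs s' hs' v hv hv'
    exact hPD l' hl' l'' hl'' hne ((hF1 l' hl' s hs).1.subset hv) ((hF1 l'' hl'' s' hs').1.subset hv')
  refine ⟨W.biUnion F, ?_, ?_, ?_⟩
  · intro s hs
    obtain ⟨l', hl', hs⟩ := Finset.mem_biUnion.1 hs
    obtain ⟨g1, g2, g3, g4⟩ := hF1 l' hl' s hs
    obtain ⟨_, w2, w3, w4, _⟩ := hW l' hl'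
    exact ⟨⟨chain_part w3 g1, w2.sublist g1.sublist, g2⟩, g1.length_le.trans w4, g3, g4⟩
  · intro s hs s' hs' hne
    obtain ⟨l', hl', hs⟩ := Finset.mem_biUnion.1 hs
    obtain ⟨l'', hl'', hs'⟩ := Finset.mem_biUnion.1 hs'
    by_cases h : l' = l''
    · subst h
      exact hF2 l' hl' s hs s' hs' hne
    · exact hEdis l' hl' l'' hl'' h s hs s' hs'
  · rw [Finset.card_biUnion]
    · have h1 : L ⊆ W.biUnion (fun l' => L.filter (fun a => a ∈ l')) := by
        intro a ha
        obtain ⟨l', hl', hal⟩ := hWc a (hL a ha)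
        exact Finset.mem_biUnion.2 ⟨l', hl', Finset.mem_filter.2 ⟨ha, hal⟩⟩
      calc L.card ≤ _ := Finset.card_le_card h1
        _ ≤ ∑ l' ∈ W, (L.filter (fun a => a ∈ l')).card := Finset.card_biUnion_le
        _ ≤ ∑ l' ∈ W, (2 * (F l').card + 1) := Finset.sum_le_sum (fun l' hl' => hF3 l' hl')
        _ = 2 * ∑ l' ∈ W, (F l').card + W.card := by
          rw [Finset.sum_add_distrib, Finset.mul_sum, Finset.card_eq_sum_ones]
    · intro l' hl' l'' hl'' hne
      have hl' := Finset.mem_coe.1 hl'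
      have hl'' := Finset.mem_coe.1 hl''
      show Disjoint (F l') (F l'')
      rw [Finset.disjoint_left]
      intro s hs hs'
      have hd := hEdis l' hl' l'' hl'' hne s hs s hs'
      have h2 := (hF1 l' hl' s hs).2.1
      rcases s with _ | ⟨a, s⟩
      · simp at h2
      · exact hd (List.mem_cons_self) (List.mem_cons_self)

end arcs

/-! ### The main proof -/

/-- Module STEPB. -/
theorem stepB (h1 : Surg1Statement.{u}) (h2 : Surg2Statement.{u}) (h3 : CountStatement.{u}) :
    StepBStatement.{u} := by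
  intro V _ G H d l K W M' Kp hopt hK hl hN hp hW hPD hWc hWn hkept hNM
  obtain ⟨v0, hv0⟩ : (cov H).Nonempty := by
    by_contra hcon
    rw [Finset.not_nonempty_iff_eq_empty] at hcon
    have : ncyc H = 0 := by simp [ncyc, cycs, hcon]
    omega
  set w := l / 16 with hwdef
  set x := (d + 1) * K with hxdef
  have hx : 1 ≤ x := Nat.one_le_iff_ne_zero.2 (by positivity)
  have hw : 1 ≤ w := by omega
  have hwl : 16 * w ≤ l := by omega
  have hl31 : l ≤ 31 * w := by omega
  have hΔ : 2 ^ 20 * (d + 1) * K * w = 2 ^ 20 * x * w := by rw [hxdef]; ring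
  have hq0 : 49152 * (d + 1) * K = 49152 * x := by rw [hxdef]; ring
  rw [hΔ, hq0] at hkept
  set hd : List V → V := fun k => k.head?.getD v0 with hhddef
  set ls : List V → V := fun k => k.getLast?.getD v0 with hlsdef
  have hhd : ∀ {k : List V} {a : V}, k.head? = some a → hd k = a := by
    intro k a h; simp [hhddef, h]
  have hls : ∀ {k : List V} {a : V}, k.getLast? = some a → ls k = a := by
    intro k a h; simp [hlsdef, h]
  have hne_hd : ∀ {k : List V}, k ≠ [] → k.head? = some (hd k) := by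
    intro k hk
    obtain ⟨a, k', rfl⟩ := List.exists_cons_of_ne_nil hk
    rfl
  have hne_ls : ∀ {k : List V}, k ≠ [] → k.getLast? = some (ls k) := by
    intro k hk
    have := List.getLast?_eq_getLast_of_ne_nil hk
    rw [hls this]; exact this
  -- facts on kept connections
  have hkc : ∀ k ∈ Kp, ∀ S, IsConn G (hcls H) S k ↔ cyc H (hd k) = S := by
    intro k hk S
    obtain ⟨S0, hS0, hc⟩ := hkept.conn k hk
    have hc' := hc
    obtain ⟨c1, ⟨a, ha, hca⟩, c3, c4⟩ := hc
    have h5 := hcls_some.1 hca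
    rw [hhd ha]
    constructor
    · rintro ⟨_, ⟨a', ha', hca'⟩, _⟩
      rw [ha] at ha'
      simp only [Option.some.injEq] at ha'
      subst ha'
      exact (hcls_some.1 hca').2
    · intro h
      rw [← h, h5.2]
      exact hc'
  have hkh : ∀ k ∈ Kp, k.head? = some (hd k) := fun k hk => by
    obtain ⟨S0, hS0, hc⟩ := hkept.conn k hk
    exact hne_hd hc.1.1
  have hkl : ∀ k ∈ Kp, k.getLast? = some (ls k) := fun k hk => by
    obtain ⟨S0, hS0, hc⟩ := hkept.conn k hk
    exact hne_ls hc.1.1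
  have hkM : ∀ k ∈ Kp, cyc H (hd k) ∈ M' := fun k hk => by
    obtain ⟨S0, hS0, hc⟩ := hkept.conn k hk
    rw [(hkc k hk S0).1 hc]; exact hS0
  have hkhc : ∀ k ∈ Kp, hd k ∈ cov H := fun k hk => by
    obtain ⟨S0, hS0, hc⟩ := hkept.conn k hk
    obtain ⟨a, ha, hca⟩ := hc.2.1
    rw [hhd ha]; exact (hcls_some.1 hca).1
  have hklc : ∀ k ∈ Kp, ls k ∈ cov H := fun k hk => by
    obtain ⟨S0, hS0, hc⟩ := hkept.conn k hk
    obtain ⟨b, j, hb, hcb, _⟩ := hc.2.2.1
    rw [hls hb]; exact (hcls_some.1 hcb).1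
  have hkn : ∀ k ∈ Kp, cyc H (ls k) ∉ M' := fun k hk => hkept.tgt k hk _ (hkl k hk)
  have hkP : ∀ k ∈ Kp, IsP G k := fun k hk => by
    obtain ⟨S0, hS0, hc⟩ := hkept.conn k hk
    exact hc.1
  have hkin : ∀ k ∈ Kp, ∀ v ∈ k.tail.dropLast, v ∉ cov H := fun k hk v hv => by
    obtain ⟨S0, hS0, hc⟩ := hkept.conn k hk
    exact hcls_none.1 (hc.2.2.2 v hv)
  have hkne : ∀ k ∈ Kp, ¬ H.Reachable (hd k) (ls k) := fun k hk h => by
    apply hkn k hk
    rw [← cyc_eq_iff.2 h]
    exact hkM k hk
  have hk2 : ∀ k ∈ Kp, 2 ≤ k.length := fun k hk => by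
    rcases k with _ | ⟨a, _ | ⟨b, k⟩⟩
    · exact absurd rfl (hkP [] hk).1
    · exfalso
      have e1 : hd [a] = a := hhd rfl
      have e2 : ls [a] = a := hls rfl
      apply hkne _ hk
      rw [e1, e2]
    · simp
  have hinj : ∀ k ∈ Kp, ∀ k' ∈ Kp, ls k = ls k' → k = k' := by
    intro k hk k' hk' h
    by_contra hne
    exact hkept.disj k hk k' hk' hne (mem_of_getLast? (hkl k hk)) (h ▸ mem_of_getLast? (hkl k' hk'))
  have hinjh : ∀ k ∈ Kp, ∀ k' ∈ Kp, hd k = hd k' → k = k' := by
    intro k hk k' hk' h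
    by_contra hne
    exact hkept.disj k hk k' hk' hne (mem_of_head? (hkh k hk)) (h ▸ mem_of_head? (hkh k' hk'))
  set L := Kp.image ls with hLdef
  have hLcard : L.card = Kp.card := Finset.card_image_of_injOn (fun k hk k' hk' h => hinj k hk k' hk' h)
  have hkk : ∀ b ∈ L, ∃ k ∈ Kp, ls k = b := by
    intro b hb
    obtain ⟨k, hk, hkb⟩ := Finset.mem_image.1 hb
    exact ⟨k, hk, hkb⟩
  choose! kk hkk1 hkk2 using hkk
  have hkk3 : ∀ k ∈ Kp, kk (ls k) = k := by
    intro k hk
    have hb : ls k ∈ L := Finset.mem_image_of_mem _ hk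
    exact hinj _ (hkk1 _ hb) _ hk (hkk2 _ hb)
  obtain ⟨E, hE1, hE2, hE3⟩ := exists_E pair hW hPD hWc L (by
    intro v hv
    obtain ⟨k, hk, rfl⟩ := Finset.mem_image.1 hv
    exact hklc k hk)
  have hEh : ∀ e ∈ E, e.head? = some (hd e) ∧ hd e ∈ L := fun e he => by
    obtain ⟨_, _, ⟨a, ha, h⟩, _⟩ := hE1 e he
    rw [hhd h]; exact ⟨h, ha⟩
  have hEl : ∀ e ∈ E, e.getLast? = some (ls e) ∧ ls e ∈ L := fun e he => by
    obtain ⟨_, _, _, ⟨a, ha, h⟩⟩ := hE1 e he
    rw [hls h]; exact ⟨h, ha⟩
  -- owners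
  set f : List V → Finset V := fun e => cyc H (hd (kk (hd e))) with hfdef
  set g : List V → Finset V := fun e => cyc H (hd (kk (ls e))) with hgdef
  have hfM : ∀ e ∈ E, f e ∈ M' := fun e he => hkM _ (hkk1 _ (hEh e he).2)
  have hgM : ∀ e ∈ E, g e ∈ M' := fun e he => hkM _ (hkk1 _ (hEl e he).2)
  have hfg : ∀ e ∈ E, f e ≠ g e := by
    intro e he h
    have hr := cyc_eq_iff.1 h
    obtain ⟨⟨a1, a2, a3⟩, b1, _, _⟩ := hE1 e he
    obtain ⟨c1, c2⟩ := hEh e he
    obtain ⟨d1, d2⟩ := hEl e he
    have hne : hd e ≠ ls e := ends_ne a2 a3 c1 d1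
    have hkne' : kk (hd e) ≠ kk (ls e) := by
      intro h'
      apply hne
      rw [← hkk2 _ c2, ← hkk2 _ d2, h']
    obtain ⟨p, hplen⟩ := exists_walk e _ _ a1 c1 d1
    have hdist : H.dist (hd e) (ls e) ≤ p.length := SimpleGraph.dist_le p
    have hfar := hkept.sep _ (hkk1 _ c2) _ (hkk1 _ d2) hkne' _ _ (hd e) (ls e) (hkh _ (hkk1 _ c2))
      (hkh _ (hkk1 _ d2)) hr (by rw [hkl _ (hkk1 _ c2), hkk2 _ c2]) (by rw [hkl _ (hkk1 _ d2), hkk2 _ d2])
      p.reachable
    have : w ≤ 2 ^ 20 * x * w := Nat.le_mul_of_pos_left _ (by positivity)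
    omega
  -- number of kept connections
  have hKcard : Kp.card = 49152 * x * M'.card := by
    rw [Finset.card_eq_sum_card_fiberwise (f := fun k => cyc H (hd k)) (t := M') (fun k hk => hkM k hk)]
    rw [Finset.sum_congr rfl (g := fun _ => 49152 * x), Finset.sum_const, smul_eq_mul, mul_comm]
    intro S hS
    rw [← hkept.card S hS]
    congr 1
    apply Finset.filter_congr
    intro k hk
    exact (hkc k hk S).symm
  -- degrees
  have hdeg : ∀ S ∈ M', (E.filter (fun e => f e = S ∨ g e = S)).card ≤ 49152 * x := by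
    intro S hS
    rw [← hkept.card S hS]
    apply Finset.card_le_card_of_injOn (fun e => if f e = S then kk (hd e) else kk (ls e))
    · intro e he
      obtain ⟨heE, hor⟩ := Finset.mem_filter.1 (Finset.mem_coe.1 he)
      rw [Finset.mem_coe, Finset.mem_filter]
      by_cases hfe : f e = S
      · simp only [if_pos hfe]
        exact ⟨hkk1 _ (hEh e heE).2, (hkc _ (hkk1 _ (hEh e heE).2) S).2 hfe⟩
      · simp only [if_neg hfe]
        exact ⟨hkk1 _ (hEl e heE).2, (hkc _ (hkk1 _ (hEl e heE).2) S).2 (hor.resolve_left hfe)⟩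
    · intro e he e' he' heq
      obtain ⟨heE, hor⟩ := Finset.mem_filter.1 (Finset.mem_coe.1 he)
      obtain ⟨heE', hor'⟩ := Finset.mem_filter.1 (Finset.mem_coe.1 he')
      have key : ∀ e ∈ E, (if f e = S then kk (hd e) else kk (ls e)) ∈ Kp ∧
          ls (if f e = S then kk (hd e) else kk (ls e)) ∈ e := by
        intro e heE
        by_cases hfe : f e = S
        · simp only [if_pos hfe]
          exact ⟨hkk1 _ (hEh e heE).2, by rw [hkk2 _ (hEh e heE).2]; exact mem_of_head? (hEh e heE).1⟩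
        · simp only [if_neg hfe]
          exact ⟨hkk1 _ (hEl e heE).2, by rw [hkk2 _ (hEl e heE).2]; exact mem_of_getLast? (hEl e heE).1⟩
      by_contra hne
      have h5 := (key e heE).2
      have h6 := (key e' heE').2
      simp only at heq
      rw [heq] at h5
      exact hE2 e heE e' heE' hne h5 h6
  obtain ⟨Z, hZE, hZdeg, hZcard, hZE2⟩ := multi (Finset V) (List V) M' E f g (49152 * x)
    (fun e he => ⟨hfM e he, hgM e he, hfg e he⟩) (fun a ha => by have h7 := hdeg a ha; convert h7)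
  set T := M'.filter (fun a => dgm f g Z a = 2) with hTdef
  have hZT : Z.card = T.card := hZcard
  have hdgm : ∀ S, dgm f g Z S = (Z.filter (fun e => f e = S ∨ g e = S)).card := by
    intro S
    unfold dgm
    congr
  have hZdeg' : ∀ a, dgm f g Z a = 0 ∨ dgm f g Z a = 2 := hZdeg
  set cons := Kp.filter (fun k => ∃ e ∈ Z, IsEnd e (ls k)) with hconsdef
  -- the two connections of a mover of degree 2
  have hfib : ∀ S ∈ T, (cons.filter (fun k => cyc H (hd k) = S)).card = 2 := by
    intro S hS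
    obtain ⟨hSM, hS2⟩ := Finset.mem_filter.1 hS
    rw [← hS2, hdgm]
    symm
    apply Finset.card_bij (fun e _ => if f e = S then kk (hd e) else kk (ls e))
    · intro e he
      obtain ⟨heZ, hor⟩ := Finset.mem_filter.1 he
      have heE := hZE heZ
      by_cases hfe : f e = S
      · simp only [if_pos hfe]
        refine Finset.mem_filter.2 ⟨Finset.mem_filter.2 ⟨hkk1 _ (hEh e heE).2, e, heZ, ?_⟩, hfe⟩
        rw [hkk2 _ (hEh e heE).2]
        exact Or.inl (hEh e heE).1
      · simp only [if_neg hfe]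
        refine Finset.mem_filter.2 ⟨Finset.mem_filter.2 ⟨hkk1 _ (hEl e heE).2, e, heZ, ?_⟩, hor.resolve_left hfe⟩
        rw [hkk2 _ (hEl e heE).2]
        exact Or.inr (hEl e heE).1
    · intro e he e' he' heq
      obtain ⟨heZ, hor⟩ := Finset.mem_filter.1 he
      obtain ⟨heZ', hor'⟩ := Finset.mem_filter.1 he'
      have key : ∀ e ∈ E, ls (if f e = S then kk (hd e) else kk (ls e)) ∈ e := by
        intro e heE
        by_cases hfe : f e = S
        · simp only [if_pos hfe]
          rw [hkk2 _ (hEh e heE).2]; exact mem_of_head? (hEh e heE).1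
        · simp only [if_neg hfe]
          rw [hkk2 _ (hEl e heE).2]; exact mem_of_getLast? (hEl e heE).1
      by_contra hne
      have h5 := key e (hZE heZ)
      have h6 := key e' (hZE heZ')
      rw [heq] at h5
      exact hE2 e (hZE heZ) e' (hZE heZ') hne h5 h6
    · intro k hk
      obtain ⟨hk1, hkS⟩ := Finset.mem_filter.1 hk
      obtain ⟨hkK, e, heZ, hend⟩ := Finset.mem_filter.1 hk1
      have heE := hZE heZ
      rcases hend with hend | hend
      · have e1 : hd e = ls k := hhd hend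
        have e2 : f e = S := by
          simp only [hfdef]
          rw [e1, hkk3 k hkK]; exact hkS
        refine ⟨e, Finset.mem_filter.2 ⟨heZ, Or.inl e2⟩, ?_⟩
        rw [if_pos e2, e1, hkk3 k hkK]
      · have e1 : ls e = ls k := hls hend
        have e2 : g e = S := by
          simp only [hgdef]
          rw [e1, hkk3 k hkK]; exact hkS
        have e3 : f e ≠ S := fun h => hfg e heE (h.trans e2.symm)
        refine ⟨e, Finset.mem_filter.2 ⟨heZ, Or.inr e2⟩, ?_⟩
        rw [if_neg e3, e1, hkk3 k hkK]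
  have hconsT : ∀ k ∈ cons, cyc H (hd k) ∈ T := by
    intro k hk
    obtain ⟨hkK, e, heZ, hend⟩ := Finset.mem_filter.1 hk
    refine Finset.mem_filter.2 ⟨hkM k hkK, ?_⟩
    have hor : f e = cyc H (hd k) ∨ g e = cyc H (hd k) := by
      rcases hend with hend | hend
      · left
        have e1 : hd e = ls k := hhd hend
        simp only [hfdef]
        rw [e1, hkk3 k hkK]
      · right
        have e1 : ls e = ls k := hls hend
        simp only [hgdef]
        rw [e1, hkk3 k hkK]
    rcases hZdeg' (cyc H (hd k)) with h | h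
    · exfalso
      rw [hdgm, Finset.card_eq_zero, Finset.filter_eq_empty_iff] at h
      exact h heZ hor
    · exact h
  -- the arcs on the movers
  have harc : ∀ S ∈ T, ∃ s : List V, IsArc H s ∧ s.length ≤ w ∧ (∀ v ∈ s, cyc H v = S) ∧
      (∀ v, IsEnd s v ↔ ∃ k ∈ cons, cyc H (hd k) = S ∧ hd k = v) := by
    intro S hS
    obtain ⟨k1, k2, hne, hpair⟩ := Finset.card_eq_two.1 (hfib S hS)
    have hk1 : k1 ∈ cons.filter (fun k => cyc H (hd k) = S) := by rw [hpair]; simp
    have hk2 : k2 ∈ cons.filter (fun k => cyc H (hd k) = S) := by rw [hpair]; simp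
    obtain ⟨hk1c, hk1S⟩ := Finset.mem_filter.1 hk1
    obtain ⟨hk2c, hk2S⟩ := Finset.mem_filter.1 hk2
    have hk1K := (Finset.mem_filter.1 hk1c).1
    have hk2K := (Finset.mem_filter.1 hk2c).1
    have hhne : hd k1 ≠ hd k2 := fun h => hne (hinjh k1 hk1K k2 hk2K h)
    obtain ⟨W0, hW0, hm1, hm2⟩ := hkept.win k1 hk1K k2 hk2K _ _ (hkh k1 hk1K) (hkh k2 hk2K)
      (cyc_eq_iff.1 (hk1S.trans hk2S.symm))
    obtain ⟨_, w2, w3, w4, w5⟩ := hW W0 hW0
    obtain ⟨s, s1, s2, s3⟩ := list_between w2 hm1 hm2 hhne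
    refine ⟨s, ⟨chain_part w3 s1, w2.sublist s1.sublist, s2⟩, s1.length_le.trans w4, ?_, ?_⟩
    · intro v hv
      rw [← hk1S]
      exact cyc_eq_iff.2 (reach_chain w3 (s1.subset hv) hm1)
    · intro v
      have e1 : (∃ k ∈ cons, cyc H (hd k) = S ∧ hd k = v) ↔ (v = hd k1 ∨ v = hd k2) := by
        constructor
        · rintro ⟨k, hk, hkS, rfl⟩
          have : k ∈ cons.filter (fun k => cyc H (hd k) = S) := Finset.mem_filter.2 ⟨hk, hkS⟩
          rw [hpair] at this
          rcases Finset.mem_insert.1 this with h | h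
          · left; rw [h]
          · right; rw [Finset.mem_singleton.1 h]
        · rintro (h | h)
          · exact ⟨k1, hk1c, hk1S, h.symm⟩
          · exact ⟨k2, hk2c, hk2S, h.symm⟩
      rw [e1]
      unfold IsEnd
      rcases s3 with ⟨p1, p2⟩ | ⟨p1, p2⟩
      · rw [p1, p2]
        simp only [Option.some.injEq]
        constructor
        · rintro (h | h)
          · exact Or.inl h.symm
          · exact Or.inr h.symm
        · rintro (h | h)
          · exact Or.inl h.symm
          · exact Or.inr h.symm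
      · rw [p1, p2]
        simp only [Option.some.injEq]
        constructor
        · rintro (h | h)
          · exact Or.inr h.symm
          · exact Or.inl h.symm
        · rintro (h | h)
          · exact Or.inr h.symm
          · exact Or.inl h.symm
  choose! arc ha1 ha2 ha3 ha4 using harc
  set mv := T.image arc with hmvdef
  have hmem1 : ∀ s : List V, IsArc H s → ∃ v, v ∈ s := by
    intro s hs
    rcases s with _ | ⟨a, s⟩
    · have := hs.2.2
      simp at this
    · exact ⟨a, List.mem_cons_self⟩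
  have hmvcard : mv.card = T.card := by
    apply Finset.card_image_of_injOn
    intro S hS S' hS' heq
    have hS := Finset.mem_coe.1 hS
    have hS' := Finset.mem_coe.1 hS'
    obtain ⟨v, hv⟩ := hmem1 _ (ha1 S hS)
    rw [← ha3 S hS v hv]
    exact ha3 S' hS' v (heq ▸ hv)
  have hZcyc : ∀ e ∈ Z, ∀ v ∈ e, cyc H v ∉ M' := by
    intro e he v hv
    have heE := hZE he
    obtain ⟨c1, c2⟩ := hEh e heE
    have h5 := hkn _ (hkk1 _ c2)
    rw [hkk2 _ c2] at h5
    rwa [← cyc_eq_iff.2 (reach_head e _ (hE1 e heE).1.1 c1 v hv)]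
  have hmvcyc : ∀ s ∈ mv, ∀ v ∈ s, cyc H v ∈ M' := by
    intro s hs v hv
    obtain ⟨S, hS, rfl⟩ := Finset.mem_image.1 hs
    rw [ha3 S hS v hv]
    exact (Finset.mem_filter.1 hS).1
  have hdisj : Disjoint mv Z := by
    rw [Finset.disjoint_left]
    intro s hs hsZ
    obtain ⟨v, hv⟩ := hmem1 s (hE1 s (hZE hsZ)).1
    exact hZcyc s hsZ v hv (hmvcyc s hs v hv)
  have hmvarc : ∀ s ∈ mv, IsArc H s ∧ s.length ≤ w := by
    intro s hs
    obtain ⟨S, hS, rfl⟩ := Finset.mem_image.1 hs
    exact ⟨ha1 S hS, ha2 S hS⟩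
  have hsep1 : ∀ s ∈ mv, ∀ s' ∈ mv ∪ Z, s' ≠ s → ∀ v ∈ s, ∀ v' ∈ s', ¬ H.Reachable v v' := by
    intro s hs s' hs' hne v hv v' hv' hr
    obtain ⟨S, hS, rfl⟩ := Finset.mem_image.1 hs
    have h5 := ha3 S hS v hv
    rcases Finset.mem_union.1 hs' with hs' | hs'
    · obtain ⟨S', hS', rfl⟩ := Finset.mem_image.1 hs'
      have h6 := ha3 S' hS' v' hv'
      apply hne
      rw [← h5, ← h6, cyc_eq_iff.2 hr]
    · apply hZcyc s' hs' v' hv'
      rw [← cyc_eq_iff.2 hr, h5]
      exact (Finset.mem_filter.1 hS).1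
  have hcH : ∀ k ∈ cons, IsEnd (arc (cyc H (hd k))) (hd k) := by
    intro k hk
    exact (ha4 _ (hconsT k hk) (hd k)).2 ⟨k, hk, rfl, rfl⟩
  have hsurg : Surg G H (mv ∪ Z) cons := by
    refine ⟨hopt.1, ?_, ?_, ?_, ?_, ?_, ?_⟩
    · intro s hs
      rcases Finset.mem_union.1 hs with hs | hs
      · exact (hmvarc s hs).1
      · exact (hE1 s (hZE hs)).1
    · intro s hs s' hs' hne v hv hv'
      rcases Finset.mem_union.1 hs with hs1 | hs1
      · exact hsep1 s hs1 s' hs' (Ne.symm hne) v hv v hv' (SimpleGraph.Reachable.refl _)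
      · rcases Finset.mem_union.1 hs' with hs2 | hs2
        · exact hsep1 s' hs2 s hs hne v hv' v hv (SimpleGraph.Reachable.refl _)
        · exact hE2 s (hZE hs1) s' (hZE hs2) hne hv hv'
    · intro k hk
      have hkK := (Finset.mem_filter.1 hk).1
      exact ⟨hkP k hkK, hk2 k hkK, hkin k hkK⟩
    · intro k hk k' hk' hne
      exact hkept.disj k (Finset.mem_filter.1 hk).1 k' (Finset.mem_filter.1 hk').1 hne
    · intro v
      constructor
      · rintro ⟨s, hs, hend⟩
        rcases Finset.mem_union.1 hs with hs | hs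
        · obtain ⟨S, hS, rfl⟩ := Finset.mem_image.1 hs
          obtain ⟨k, hk, _, hkv⟩ := (ha4 S hS v).1 hend
          exact ⟨k, hk, Or.inl (hkv ▸ hkh k (Finset.mem_filter.1 hk).1)⟩
        · have hvL : v ∈ L := by
            rcases hend with h | h
            · rw [← hhd h]; exact (hEh s (hZE hs)).2
            · rw [← hls h]; exact (hEl s (hZE hs)).2
          have e1 := hkk2 v hvL
          refine ⟨kk v, Finset.mem_filter.2 ⟨hkk1 v hvL, s, hs, by rw [e1]; exact hend⟩, Or.inr ?_⟩
          rw [hkl _ (hkk1 v hvL), e1]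
      · rintro ⟨k, hk, hend⟩
        obtain ⟨hkK, e, heZ, hend'⟩ := Finset.mem_filter.1 hk
        rcases hend with h | h
        · rw [← hhd h]
          exact ⟨_, Finset.mem_union_left _ (Finset.mem_image_of_mem _ (hconsT k hk)), hcH k hk⟩
        · rw [← hls h]
          exact ⟨e, Finset.mem_union_right _ heZ, hend'⟩
    · intro k hk a b ha hb hadj
      have hkK := (Finset.mem_filter.1 hk).1
      rw [← hhd ha, ← hls hb] at hadj
      exact hkne k hkK hadj.reachable
  -- numerics
  have hp31 : (cov H).card ≤ 31 * 384 * x * w * M'.card := by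
    calc (cov H).card ≤ K * l * ncyc H := hp
      _ ≤ K * (31 * w) * (384 * (d + 1) * M'.card) := by
        apply Nat.mul_le_mul
        · exact Nat.mul_le_mul_left _ hl31
        · exact hNM
      _ = 31 * 384 * x * w * M'.card := by rw [hxdef]; ring
  have hM1 : 1 ≤ M'.card := by
    by_contra hcon
    have : M'.card = 0 := by omega
    rw [this] at hNM
    omega
  have hWn' : W.card ≤ 23808 * x * M'.card := by
    have e1 : w * W.card ≤ w * (23808 * x * M'.card) := by
      calc w * W.card ≤ 2 * (cov H).card := hWn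
        _ ≤ 2 * (31 * 384 * x * w * M'.card) := Nat.mul_le_mul_left _ hp31
        _ = w * (23808 * x * M'.card) := by ring
    exact Nat.le_of_mul_le_mul_left e1 (by omega)
  have hm : M'.card ≤ 4 * mv.card := by
    rw [hmvcard, ← hZT]
    have e1 : 49152 * x * M'.card ≤ 2 * (M'.card + 49152 * x * Z.card) + 23808 * x * M'.card := by
      calc 49152 * x * M'.card = L.card := by rw [hLcard, hKcard]
        _ ≤ 2 * E.card + W.card := hE3
        _ ≤ _ := by
          apply Nat.add_le_add _ hWn'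
          exact Nat.mul_le_mul_left _ hZE2
    by_contra hcon
    push Not at hcon
    have e2 : 4 * Z.card + 1 ≤ M'.card := hcon
    have e3 : 98304 * x * (4 * Z.card + 1) ≤ 98304 * x * M'.card := Nat.mul_le_mul_left _ e2
    have e4 : M'.card ≤ x * M'.card := Nat.le_mul_of_pos_left _ (by omega)
    nlinarith [e1, e3, e4, hx, hM1]
  exact final_step h1 h2 h3 hopt hx hw hwl hp31 hm hM1 hsurg hdisj (by rw [hmvcard, ← hZT])
    (by
      intro s hs
      rcases Finset.mem_union.1 hs with hs | hs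
      · exact (hmvarc s hs).2
      · exact (hE1 s (hZE hs)).2.1)
    hsep1
    (by
      intro k hk
      have hkK := (Finset.mem_filter.1 hk).1
      obtain ⟨_, e, heZ, hend'⟩ := Finset.mem_filter.1 hk
      exact ⟨⟨_, Finset.mem_image_of_mem _ (hconsT k hk), hd k, hkh k hkK, hcH k hk⟩,
        e, heZ, ls k, hkl k hkK, hend'⟩)
    (fun k hk k' hk' hne => hkept.sep k (Finset.mem_filter.1 hk).1 k' (Finset.mem_filter.1 hk').1 hne)

end Pool.Agent.Lib.MP_688fd0_co.LIN.H60
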