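import Pool.Agent.Lib.MP_688fd0_co.LIN.Iface

/-!
Module PAIR (LIN): disjoint contiguous sublists with ends in a given set.  (helper60)
-/

set_option autoImplicit false

namespace Pool.Agent.Lib.MP_688fd0_co.LIN.H60

open Classical

universe u

theorem pair_aux {α : Type u} (P : Finset α) : ∀ (l c : List α), (c ++ l).Nodup →
    (∀ a, c.head? = some a → a ∈ P) → ∃ F : Finset (List α),
      (∀ s ∈ F, s <:+: c ++ l ∧ 2 ≤ s.length ∧ (∃ a ∈ P, s.head? = some a) ∧ (∃ b ∈ P, s.getLast? = some b)) ∧
      (∀ s ∈ F, ∀ s' ∈ F, s ≠ s' → List.Disjoint s s') ∧
      (if c = [] then 0 else 1) + (P.filter (fun a => a ∈ l)).card ≤ 2 * F.card + 1 := by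
  intro l
  induction l with
  | nil =>
    intro c _ _
    refine ⟨∅, by simp, by simp, ?_⟩
    have : P.filter (fun a => a ∈ ([] : List α)) = ∅ := by
      rw [Finset.filter_eq_empty_iff]
      intro a _ h
      exact absurd h (List.not_mem_nil)
    rw [this, Finset.card_empty, Finset.card_empty]
    split_ifs <;> omega
  | cons x l ih =>
    intro c hnd hc
    have hnd' : (c ++ [x] ++ l).Nodup := by
      rw [List.append_assoc, List.singleton_append]; exact hnd
    have hxl : (x :: l).Nodup := (List.nodup_append.1 hnd).2.1
    have hx : x ∉ l := (List.nodup_cons.1 hxl).1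
    by_cases hxP : x ∈ P
    · have hcount : (P.filter (fun a => a ∈ x :: l)).card = 1 + (P.filter (fun a => a ∈ l)).card := by
        have h1 : P.filter (fun a => a ∈ x :: l) = insert x (P.filter (fun a => a ∈ l)) := by
          ext a
          simp only [Finset.mem_filter, List.mem_cons, Finset.mem_insert]
          constructor
          · rintro ⟨h1, h2 | h2⟩
            · exact Or.inl h2
            · exact Or.inr ⟨h1, h2⟩
          · rintro (h1 | ⟨h1, h2⟩)
            · rw [h1]; exact ⟨hxP, Or.inl rfl⟩
            · exact ⟨h1, Or.inr h2⟩
        rw [h1, Finset.card_insert_of_notMem, add_comm]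
        intro h2
        exact hx (Finset.mem_filter.1 h2).2
      by_cases hce : c = []
      · subst hce
        obtain ⟨F, h1, h2, h3⟩ := ih [x] (by simpa using hnd) (by
          intro a ha
          simp only [List.head?_cons, Option.some.injEq] at ha
          rw [← ha]; exact hxP)
        refine ⟨F, ?_, h2, ?_⟩
        · intro s hs
          have := h1 s hs
          simpa using this
        · rw [if_pos rfl, hcount]
          rw [if_neg (by simp)] at h3
          omega
      · obtain ⟨F, h1, h2, h3⟩ := ih [] (by simpa using (List.nodup_cons.1 hxl).2) (by simp)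
        have hmem : ∀ s ∈ F, ∀ a ∈ s, a ∈ l := by
          intro s hs a ha
          have := (h1 s hs).1
          rw [List.nil_append] at this
          exact this.subset ha
        have hnF : c ++ [x] ∉ F := fun h => hx (hmem _ h x (by simp))
        have hdis : ∀ s ∈ F, List.Disjoint (c ++ [x]) s := by
          intro s hs a h4 h5
          have h6 := hmem s hs a h5
          exact (List.disjoint_of_nodup_append hnd') h4 h6
        refine ⟨insert (c ++ [x]) F, ?_, ?_, ?_⟩
        · intro s hs
          rcases Finset.mem_insert.1 hs with rfl | hs
          · refine ⟨⟨[], l, by simp⟩, ?_, ?_, ⟨x, hxP, by simp⟩⟩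
            · have : 0 < c.length := List.length_pos_iff.2 hce
              rw [List.length_append]
              simp only [List.length_cons, List.length_nil]
              omega
            · obtain ⟨a, c', rfl⟩ := List.exists_cons_of_ne_nil hce
              exact ⟨a, hc a (by simp), by simp⟩
          · obtain ⟨h4, h5⟩ := h1 s hs
            refine ⟨?_, h5⟩
            rw [List.nil_append] at h4
            exact h4.trans ⟨c ++ [x], [], by simp⟩
        · intro s hs s' hs' hne
          rcases Finset.mem_insert.1 hs with rfl | hs
          · rcases Finset.mem_insert.1 hs' with rfl | hs'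
            · exact absurd rfl hne
            · exact hdis s' hs'
          · rcases Finset.mem_insert.1 hs' with rfl | hs'
            · exact (hdis s hs).symm
            · exact h2 s hs s' hs' hne
        · rw [if_neg hce, hcount, Finset.card_insert_of_notMem hnF]
          rw [if_pos rfl] at h3
          omega
    · have hcount : P.filter (fun a => a ∈ x :: l) = P.filter (fun a => a ∈ l) := by
        apply Finset.filter_congr
        intro a ha
        rw [List.mem_cons]
        constructor
        · rintro (h | h)
          · exact absurd (h ▸ ha) hxP
          · exact h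
        · exact Or.inr
      rw [hcount]
      by_cases hce : c = []
      · subst hce
        obtain ⟨F, h1, h2, h3⟩ := ih [] (by simpa using (List.nodup_cons.1 hxl).2) (by simp)
        refine ⟨F, ?_, h2, h3⟩
        intro s hs
        obtain ⟨h4, h5⟩ := h1 s hs
        refine ⟨?_, h5⟩
        rw [List.nil_append] at h4 ⊢
        exact h4.trans ⟨[x], [], by simp⟩
      · obtain ⟨F, h1, h2, h3⟩ := ih (c ++ [x]) hnd' (by
          intro a ha
          apply hc a
          obtain ⟨b, c', rfl⟩ := List.exists_cons_of_ne_nil hce
          simpa using ha)
        refine ⟨F, ?_, h2, ?_⟩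
        · intro s hs
          have := h1 s hs
          rw [List.append_assoc, List.singleton_append] at this
          exact this
        · rw [if_neg hce]
          rw [if_neg (by simp)] at h3
          exact h3

/-- Module PAIR. -/
theorem pair : PairStatement.{u} := by
  intro α l hl P
  obtain ⟨F, h1, h2, h3⟩ := pair_aux P l [] (by simpa using hl) (by simp)
  rw [if_pos rfl, zero_add] at h3
  refine ⟨F, ?_, h2, h3⟩
  intro s hs
  have := h1 s hs
  rwa [List.nil_append] at this

end Pool.Agent.Lib.MP_688fd0_co.LIN.H60
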